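import Mathlib

-- part MP_25e033_co.Alg
section

set_option autoImplicit false

namespace Pool.Agent.MP_25e033_co

open Finset

/-- Pigeonhole vanishing of a determinant: every row is a combination of `card J₁` fixed vectors
plus multiples of `card J₂` fixed square-zero scalars. -/
theorem det_eq_zero_of_rows {Λ : Type*} [CommRing Λ] {E J₁ J₂ : Type*} [Fintype E] [DecidableEq E]
    [Fintype J₁] [Fintype J₂]
    (U : J₁ → E → Λ) (c : E → J₁ → Λ) (w : J₂ → Λ) (g : E → J₂ → E → Λ)
    (hw : ∀ j, w j * w j = 0) (M : Matrix E E Λ)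
    (hM : ∀ q p, M q p = ∑ j, c q j * U j p + ∑ j, w j * g q j p)
    (hcard : Fintype.card J₁ + Fintype.card J₂ < Fintype.card E) : M.det = 0 := by
  classical
  let a : E → J₁ ⊕ J₂ → Λ := fun q j => Sum.elim (c q) w j
  let v : E → J₁ ⊕ J₂ → E → Λ := fun q j => Sum.elim U (g q) j
  have hrow : M = fun q => ∑ j, a q j • v q j := by
    funext q p
    rw [hM q p, Fintype.sum_sum_type]
    simp [a, v, Finset.sum_apply]
  have h1 : M.det = (Matrix.detRowAlternating (n := E) (R := Λ)).toMultilinearMap
      (fun q => ∑ j, a q j • v q j) := by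
    rw [hrow]; rfl
  rw [h1, MultilinearMap.map_sum]
  refine Finset.sum_eq_zero fun φ _ => ?_
  rw [MultilinearMap.map_smul_univ]
  obtain ⟨q, q', hne, hφ⟩ := Fintype.exists_ne_map_eq_of_card_lt φ (by simpa using hcard)
  rcases hj : φ q with j | j
  · have : (Matrix.detRowAlternating (n := E) (R := Λ)).toMultilinearMap
        (fun q => v q (φ q)) = 0 := by
      apply (Matrix.detRowAlternating (n := E) (R := Λ)).map_eq_zero_of_eq _ _ hne
      simp only [v]
      rw [← hφ, hj]; rfl
    rw [this, smul_zero]
  · have : ∏ i, a i (φ i) = 0 := by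
      have hq' : q' ∈ (Finset.univ.erase q) := Finset.mem_erase.2 ⟨hne.symm, Finset.mem_univ _⟩
      rw [← Finset.mul_prod_erase _ _ (Finset.mem_univ q), ← Finset.mul_prod_erase _ _ hq',
        ← mul_assoc]
      have e1 : a q (φ q) = w j := by simp only [a]; rw [hj]; rfl
      have e2 : a q' (φ q') = w j := by simp only [a]; rw [← hφ, hj]; rfl
      rw [e1, e2, hw, zero_mul]
    rw [this, zero_smul]

/-- the square-zero elements form an ideal in characteristic two -/
def sqZero (Λ : Type*) [CommRing Λ] (h2 : (2 : Λ) = 0) : Ideal Λ where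
  carrier := {z | z * z = 0}
  zero_mem' := by simp
  add_mem' := by
    intro a b ha hb
    simp only [Set.mem_ofPred_eq] at ha hb ⊢
    linear_combination ha + hb + (a * b) * h2
  smul_mem' := by
    intro c a ha
    simp only [Set.mem_ofPred_eq, smul_eq_mul] at ha ⊢
    linear_combination (c * c) * ha

/-- A square-zero perturbation of a diagonal projection is a product through the support of the
projection plus a square-zero matrix supported on the complementary block. -/
theorem decomp {Λ : Type*} [CommRing Λ] (h2 : (2 : Λ) = 0) {ι : Type*} [Fintype ι] [DecidableEq ι]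
    (P : ι → Prop) [DecidablePred P] (Y X : ι → ι → Λ) (hY : ∀ i j, Y i j * Y i j = 0)
    (hX : ∀ i j, X i j = (if i = j ∧ P i then 1 else 0) + Y i j) :
    ∃ (V : {l // P l} → ι → Λ) (w : {i // ¬ P i} × {i // ¬ P i} → Λ),
      (∀ j, w j * w j = 0) ∧
      ∀ i j, X i j = ∑ l : {l // P l}, X i l * V l j +
        ∑ ab : {i // ¬ P i} × {i // ¬ P i}, w ab * (if i = ab.1.1 ∧ j = ab.2.1 then 1 else 0) := by
  classical
  set N := sqZero Λ h2 with hN
  have hYN : ∀ i j, Y i j ∈ N := fun i j => hY i j
  let A : Matrix {l // P l} {l // P l} Λ := fun a b => X a b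
  have hA : IsUnit A.det := by
    have h1 : (Ideal.Quotient.mk N) A.det = 1 := by
      rw [RingHom.map_det]
      have : (Ideal.Quotient.mk N).mapMatrix A = 1 := by
        ext a b
        change (Ideal.Quotient.mk N) (X a b) = _
        rw [hX, map_add, Ideal.Quotient.eq_zero_iff_mem.2 (hYN _ _), add_zero, Matrix.one_apply]
        by_cases h : a = b
        · subst h; simp [a.2]
        · have : ¬ (a.1 = b.1) := fun h' => h (Subtype.ext h')
          simp [h, this]
      rw [this, Matrix.det_one]
    have h3 : A.det - 1 ∈ N := by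
      rw [← Ideal.Quotient.eq_zero_iff_mem, map_sub, h1, map_one, sub_self]
    have h4 : (A.det - 1) * (A.det - 1) = 0 := h3
    refine IsUnit.of_mul_eq_one A.det ?_
    linear_combination h4 + (A.det - 1) * h2
  let B : Matrix {l // P l} ι Λ := fun a j => X a j
  let V : Matrix {l // P l} ι Λ := A⁻¹ * B
  refine ⟨V, fun ab => X ab.1 ab.2 - ∑ l : {l // P l}, X ab.1 l * V l ab.2, ?_, ?_⟩
  · intro ab
    have hrow : ∀ j, X ab.1 j ∈ N := by
      intro j
      rw [hX]
      simp only [ab.1.2, and_false, if_false, zero_add]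
      exact hYN _ _
    have : X ab.1 ab.2 - ∑ l : {l // P l}, X ab.1 l * V l ab.2 ∈ N :=
      N.sub_mem (hrow _) (N.sum_mem fun l _ => N.mul_mem_right _ (hrow _))
    exact this
  · intro i j
    by_cases hi : P i
    · have h1 : A * V = B := by
        simp only [V]
        rw [← Matrix.mul_assoc, Matrix.mul_nonsing_inv _ hA, Matrix.one_mul]
      have h2' := congrFun (congrFun h1 ⟨i, hi⟩) j
      rw [Matrix.mul_apply] at h2'
      rw [Finset.sum_eq_zero (s := (Finset.univ : Finset ({i // ¬ P i} × {i // ¬ P i}))), add_zero]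
      · exact h2'.symm
      · intro ab _
        have : ¬ (i = ab.1.1) := fun h => ab.1.2 (h ▸ hi)
        simp [this]
    · by_cases hj : P j
      · have h1 : ∀ l : {l // P l}, V l j = if l = ⟨j, hj⟩ then 1 else 0 := by
          intro l
          have h3 := congrFun (congrFun (Matrix.nonsing_inv_mul _ hA) l) ⟨j, hj⟩
          rw [Matrix.mul_apply, Matrix.one_apply] at h3
          rw [← h3]
          simp only [V, Matrix.mul_apply]
          rfl
        rw [Finset.sum_eq_zero (s := (Finset.univ : Finset ({i // ¬ P i} × {i // ¬ P i}))),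
          add_zero]
        · simp [h1]
        · intro ab _
          have : ¬ (j = ab.2.1) := fun h => ab.2.2 (h ▸ hj)
          simp [this]
      · rw [Finset.sum_eq_single (s := (Finset.univ : Finset ({i // ¬ P i} × {i // ¬ P i})))
          (⟨i, hi⟩, ⟨j, hj⟩)]
        · simp
        · intro ab _ hab
          have : ¬ (i = ab.1.1 ∧ j = ab.2.1) := by
            rintro ⟨h1, h2⟩
            apply hab
            ext
            · exact h1.symm
            · exact h2.symm
          simp [this]
        · simp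

/-- The block matrix of a colouring has zero determinant when there are too many cells. -/
theorem det_block_eq_zero {Λ : Type*} [CommRing Λ] (h2 : (2 : Λ) = 0) {ι : Type*} [Fintype ι]
    [DecidableEq ι] {κ : Type*} [Fintype κ] [DecidableEq κ] {E : Type*} [Fintype E]
    [DecidableEq E] (row col : E → ι) (sym : E → κ)
    (P : ι → Prop) [DecidablePred P] (Y X : ι → ι → Λ) (hY : ∀ i j, Y i j * Y i j = 0)
    (hX : ∀ i j, X i j = (if i = j ∧ P i then 1 else 0) + Y i j)
    (M : Matrix E E Λ) (hM : ∀ q p, M q p = if sym q = sym p then X (row q) (col p) else 0)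
    (hcard : Fintype.card κ * Fintype.card {l // P l} +
      Fintype.card {l // ¬ P l} * Fintype.card {l // ¬ P l} < Fintype.card E) : M.det = 0 := by
  obtain ⟨V, w, hw, hV⟩ := decomp h2 P Y X hY hX
  refine det_eq_zero_of_rows (J₁ := κ × {l // P l}) (J₂ := {i // ¬ P i} × {i // ¬ P i})
    (fun j p => if sym p = j.1 then V j.2 (col p) else 0)
    (fun q j => if sym q = j.1 then X (row q) j.2 else 0) w
    (fun q ab p => if sym q = sym p then (if row q = ab.1.1 ∧ col p = ab.2.1 then 1 else 0) else 0)
    hw M ?_ (by simpa [Fintype.card_prod] using hcard)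
  intro q p
  rw [hM]
  by_cases h : sym q = sym p
  · rw [if_pos h, hV (row q) (col p)]
    congr 1
    · rw [Fintype.sum_prod_type, Finset.sum_eq_single (sym p)]
      · simp [h]
      · intro s _ hs
        simp [hs.symm]
      · simp
    · simp [h]
  · rw [if_neg h]
    simp only [h, if_false, mul_zero, Finset.sum_const_zero, add_zero]
    symm
    refine Finset.sum_eq_zero fun j _ => ?_
    by_cases h1 : sym q = j.1
    · have : ¬ sym p = j.1 := fun h' => h (h1.trans h'.symm)
      simp [this]
    · simp [h1]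

end Pool.Agent.MP_25e033_co

end

-- part MP_25e033_co.Main
section

set_option autoImplicit false

namespace Pool.Agent.MP_25e033_co

open Finset MvPolynomial

/-- top coefficients only see the linear parts of affine factors -/
theorem coeff_prod_affine {E σ R : Type*} [Fintype E] [DecidableEq E] [CommRing R]
    (a : E → R) (f : E → MvPolynomial σ R) (hf : ∀ i, (f i).IsHomogeneous 1)
    (μ : σ →₀ ℕ) (hμ : μ.degree = Fintype.card E) :
    coeff μ (∏ i, (f i + C (a i))) = coeff μ (∏ i, f i) := by
  classical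
  rw [Finset.prod_add, coeff_sum, Finset.sum_eq_single Finset.univ]
  · simp
  · intro t _ ht
    have h1 : (∏ i ∈ t, f i).IsHomogeneous (∑ _i ∈ t, 1) :=
      IsHomogeneous.prod t f (fun _ => 1) (fun i _ => hf i)
    have h2 : (∏ i ∈ Finset.univ \ t, (C (a i) : MvPolynomial σ R)).IsHomogeneous
        (∑ _i ∈ Finset.univ \ t, 0) :=
      IsHomogeneous.prod _ _ (fun _ => 0) (fun i _ => isHomogeneous_C σ (a i))
    apply (h1.mul h2).coeff_eq_zero
    rw [hμ]
    simp only [Finset.sum_const, smul_eq_mul, mul_one, mul_zero, add_zero]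
    have := Finset.card_lt_card (Finset.ssubset_univ_iff.2 ht)
    rw [Finset.card_univ] at this
    omega
  · simp

/-- the squarefree exponent -/
noncomputable def allOne (E : Type*) [Fintype E] : E →₀ ℕ := ∑ e, Finsupp.single e 1

theorem allOne_apply {E : Type*} [Fintype E] (e : E) : allOne E e = 1 := by
  classical
  simp [allOne, Finsupp.finsetSum_apply, Finsupp.single_apply]

theorem allOne_degree {E : Type*} [Fintype E] : (allOne E).degree = Fintype.card E := by
  classical
  simp [allOne, map_sum]

theorem prod_X_eq {E F R : Type*} [Fintype E] [CommRing R] (τ : E → F) :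
    (∏ i, (X (τ i) : MvPolynomial F R)) = monomial (∑ i, Finsupp.single (τ i) 1) 1 := by
  classical
  rw [monomial_sum_one]
  rfl

theorem surj_of_coeff {E R : Type*} [Fintype E] [CommRing R] (τ : E → E)
    (h : coeff (allOne E) (∏ i, (X (τ i) : MvPolynomial E R)) ≠ 0) : Function.Surjective τ := by
  classical
  rw [prod_X_eq, coeff_monomial] at h
  have h1 : (∑ i, Finsupp.single (τ i) 1) = allOne E := by
    by_contra h'
    simp [h'] at h
  intro e
  by_contra he
  push Not at he
  have := DFunLike.congr_fun h1 e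
  rw [allOne_apply, Finsupp.finsetSum_apply, Finset.sum_eq_zero] at this
  · omega
  · intro i _
    simp [he i]

theorem coeff_eq_zero_of_mem {E R : Type*} [Fintype E] [CommRing R] (g : MvPolynomial E R)
    (hg : g ∈ Ideal.span (Set.range fun e : E => (X e * X e : MvPolynomial E R))) :
    coeff (allOne E) g = 0 := by
  classical
  obtain ⟨c, rfl⟩ := Ideal.mem_span_range_iff_exists_fun.1 hg
  rw [coeff_sum]
  refine Finset.sum_eq_zero fun e _ => ?_
  rw [← mul_assoc, coeff_mul_X', if_pos (by simp [allOne_apply]), coeff_mul_X', if_neg]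
  simp [allOne_apply]

/-- unique completion forces the only full term of the determinant to be the diagonal one -/
theorem perm_eq_one {n : ℕ} (L : Fin n → Fin n → Fin n)
    (hr : ∀ i, Function.Injective (L i)) (hc : ∀ j, Function.Injective (fun i => L i j))
    (S : Finset (Fin n × Fin n))
    (hS : ∀ M : Fin n → Fin n → Fin n, (∀ i, Function.Injective (M i)) →
      (∀ j, Function.Injective (fun i => M i j)) → (∀ p ∈ S, M p.1 p.2 = L p.1 p.2) → M = L)
    (σ τ : Equiv.Perm {p : Fin n × Fin n // p ∉ S})
    (hσ : ∀ i, L (σ i).1.1 (σ i).1.2 = L i.1.1 i.1.2)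
    (hτ : ∀ i, (τ i).1 = ((σ i).1.1, i.1.2)) : σ = 1 := by
  classical
  let ρ : Equiv.Perm (Fin n × Fin n) := Equiv.Perm.ofSubtype τ⁻¹
  let ρ' : Equiv.Perm (Fin n × Fin n) := Equiv.Perm.ofSubtype (σ * τ⁻¹)
  have key : ∀ p : Fin n × Fin n, (ρ p).2 = p.2 ∧ (ρ' p).1 = p.1 ∧
      L (ρ' p).1 (ρ' p).2 = L (ρ p).1 (ρ p).2 := by
    intro p
    by_cases hp : p ∉ S
    · have e1 : ρ p = (τ⁻¹ ⟨p, hp⟩).1 := Equiv.Perm.ofSubtype_apply_of_mem (p := fun p => p ∉ S) _ hp
      have e2 : ρ' p = (σ (τ⁻¹ ⟨p, hp⟩)).1 := Equiv.Perm.ofSubtype_apply_of_mem (p := fun p => p ∉ S) _ hp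
      have e3 := hτ (τ⁻¹ ⟨p, hp⟩)
      simp only [Equiv.Perm.coe_inv, Equiv.apply_symm_apply] at e3
      rw [e1, e2]
      refine ⟨?_, ?_, hσ _⟩
      · exact (congrArg Prod.snd e3).symm
      · exact (congrArg Prod.fst e3).symm
    · have e1 : ρ p = p := Equiv.Perm.ofSubtype_apply_of_not_mem (p := fun p => p ∉ S) _ hp
      have e2 : ρ' p = p := Equiv.Perm.ofSubtype_apply_of_not_mem (p := fun p => p ∉ S) _ hp
      rw [e1, e2]
      exact ⟨rfl, rfl, rfl⟩
  have hM := hS (fun i j => L (ρ (i, j)).1 (ρ (i, j)).2) ?_ ?_ ?_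
  · have hτ1 : ∀ i, τ i = i := by
      intro i
      have h1 := congrFun (congrFun hM (τ i).1.1) (τ i).1.2
      have e1 : ρ (τ i).1 = i.1 := by
        rw [show ρ (τ i).1 = (τ⁻¹ ⟨(τ i).1, (τ i).2⟩).1 from
          Equiv.Perm.ofSubtype_apply_of_mem (p := fun p => p ∉ S) _ (τ i).2]
        simp
      simp only [Prod.mk.eta, e1] at h1
      have h2 : (τ i).1.2 = i.1.2 := by rw [hτ]
      rw [h2] at h1
      have h3 := hc i.1.2 h1
      exact Subtype.ext (Prod.ext h3.symm h2)
    ext1 i
    have h1 : (σ i).1.1 = i.1.1 := by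
      have := hτ i
      rw [hτ1] at this
      exact (congrArg Prod.fst this).symm
    have h2 := hσ i
    rw [h1] at h2
    exact Subtype.ext (Prod.ext h1 (hr _ h2))
  · intro i j j' h
    simp only at h
    rw [← (key _).2.2, ← (key _).2.2, (key _).2.1, (key _).2.1] at h
    have h1 := hr _ h
    have h2 : ρ' (i, j) = ρ' (i, j') := Prod.ext (by rw [(key _).2.1, (key _).2.1]) h1
    exact congrArg Prod.snd (ρ'.injective h2)
  · intro j i i' h
    simp only at h
    rw [(key _).1, (key _).1] at h
    have h1 := hc _ h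
    have h2 : ρ (i, j) = ρ (i', j) := Prod.ext h1 (by rw [(key _).1, (key _).1])
    exact congrArg Prod.fst (ρ.injective h2)
  · intro p hp
    have e1 : ρ p = p := Equiv.Perm.ofSubtype_apply_of_not_mem (p := fun p => p ∉ S) _ (not_not.2 hp)
    simp only [Prod.mk.eta, e1]

/-- the variable of an empty cell, zero on a given cell -/
noncomputable def cellVar {n : ℕ} (S : Finset (Fin n × Fin n)) (i j : Fin n) :
    MvPolynomial {p : Fin n × Fin n // p ∉ S} (ZMod 2) :=
  if h : (i, j) ∉ S then X ⟨(i, j), h⟩ else 0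

theorem coeff_det {n : ℕ} (L : Fin n → Fin n → Fin n)
    (hr : ∀ i, Function.Injective (L i)) (hc : ∀ j, Function.Injective (fun i => L i j))
    (S : Finset (Fin n × Fin n))
    (hS : ∀ M : Fin n → Fin n → Fin n, (∀ i, Function.Injective (M i)) →
      (∀ j, Function.Injective (fun i => M i j)) → (∀ p ∈ S, M p.1 p.2 = L p.1 p.2) → M = L)
    (x : Fin n → Fin n → ZMod 2)
    (M : Matrix {p : Fin n × Fin n // p ∉ S} {p : Fin n × Fin n // p ∉ S}
      (MvPolynomial {p : Fin n × Fin n // p ∉ S} (ZMod 2)))
    (hM : ∀ q p, M q p = if L q.1.1 q.1.2 = L p.1.1 p.1.2 then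
      C (x q.1.1 p.1.2) + cellVar S q.1.1 p.1.2 else 0) :
    coeff (allOne _) M.det = 1 := by
  classical
  have hterm : ∀ σ : Equiv.Perm {p : Fin n × Fin n // p ∉ S},
      coeff (allOne _) (∏ i, M (σ i) i) = coeff (allOne _)
        (∏ i, if L (σ i).1.1 (σ i).1.2 = L i.1.1 i.1.2 then cellVar S (σ i).1.1 i.1.2 else 0) := by
    intro σ
    rw [← coeff_prod_affine
      (fun i => if L (σ i).1.1 (σ i).1.2 = L i.1.1 i.1.2 then x (σ i).1.1 i.1.2 else 0)
      (fun i => if L (σ i).1.1 (σ i).1.2 = L i.1.1 i.1.2 then cellVar S (σ i).1.1 i.1.2 else 0)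
      _ _ allOne_degree]
    · congr 1
      refine Finset.prod_congr rfl fun i _ => ?_
      rw [hM]
      split_ifs
      · rw [add_comm]
      · simp
    · intro i
      split_ifs
      · unfold cellVar
        split_ifs
        · exact isHomogeneous_zero _ _ _
        · exact isHomogeneous_X _ _
      · exact isHomogeneous_zero _ _ _
  rw [Matrix.det_apply, coeff_sum, Finset.sum_eq_single 1]
  · rw [Equiv.Perm.sign_one, one_smul, hterm]
    simp only [Equiv.Perm.coe_one, id_eq, if_true]
    have : (∏ i : {p : Fin n × Fin n // p ∉ S}, cellVar S i.1.1 i.1.2) =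
        ∏ i : {p : Fin n × Fin n // p ∉ S}, X (id i) := by
      refine Finset.prod_congr rfl fun i _ => ?_
      simp [cellVar, i.2]
    rw [this, prod_X_eq, coeff_monomial, if_pos]
    rfl
  · intro σ _ hσ
    have : coeff (allOne _) (∏ i, M (σ i) i) = 0 := by
      rw [hterm]
      by_contra hne
      apply hσ
      have h1 : ∀ i, L (σ i).1.1 (σ i).1.2 = L i.1.1 i.1.2 ∧ ((σ i).1.1, i.1.2) ∉ S := by
        intro i
        by_contra h
        apply hne
        rw [Finset.prod_eq_zero (Finset.mem_univ i), coeff_zero]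
        split_ifs with h2
        · have : ¬ ((σ i).1.1, i.1.2) ∉ S := fun h3 => h ⟨h2, h3⟩
          unfold cellVar
          rw [dif_neg this]
        · rfl
      let τ : {p : Fin n × Fin n // p ∉ S} → {p : Fin n × Fin n // p ∉ S} :=
        fun i => ⟨((σ i).1.1, i.1.2), (h1 i).2⟩
      have h2 : Function.Surjective τ := by
        apply surj_of_coeff (R := ZMod 2)
        have e : (∏ i, (X (τ i) : MvPolynomial _ (ZMod 2))) = ∏ i,
            if L (σ i).1.1 (σ i).1.2 = L i.1.1 i.1.2 then cellVar S (σ i).1.1 i.1.2 else 0 := by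
          refine Finset.prod_congr rfl fun i _ => ?_
          rw [if_pos (h1 i).1]
          unfold cellVar
          rw [dif_pos (h1 i).2]
        rw [e]
        exact hne
      exact perm_eq_one L hr hc S hS σ
        (Equiv.ofBijective τ ((Finite.surjective_iff_bijective).1 h2)) (fun i => (h1 i).1)
        (fun i => rfl)
    rw [Units.smul_def, coeff_smul, this, smul_zero]
  · simp

/-- Nelder's conjecture. -/
theorem nelder (n : ℕ) (L : Fin n → Fin n → Fin n)
    (hr : ∀ i, Function.Injective (L i)) (hc : ∀ j, Function.Injective (fun i => L i j))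
    (S : Finset (Fin n × Fin n))
    (hS : ∀ M : Fin n → Fin n → Fin n, (∀ i, Function.Injective (M i)) →
      (∀ j, Function.Injective (fun i => M i j)) → (∀ p ∈ S, M p.1 p.2 = L p.1 p.2) → M = L) :
    n ^ 2 / 4 ≤ S.card := by
  classical
  by_contra hlt
  push Not at hlt
  let E := {p : Fin n × Fin n // p ∉ S}
  let R := MvPolynomial E (ZMod 2)
  let J : Ideal R := Ideal.span (Set.range fun e : E => (X e * X e : R))
  let π : R →+* R ⧸ J := Ideal.Quotient.mk J
  let P : Fin n → Prop := fun i => i.1 < n / 2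
  let x : Fin n → Fin n → ZMod 2 := fun i j => if i = j ∧ P i then 1 else 0
  let M : Matrix E E R := fun q p => if L q.1.1 q.1.2 = L p.1.1 p.1.2 then
      C (x q.1.1 p.1.2) + cellVar S q.1.1 p.1.2 else 0
  have h1 : coeff (allOne E) M.det = 1 := coeff_det L hr hc S hS x M (fun _ _ => rfl)
  have h2 : (2 : R ⧸ J) = 0 := by
    have : (2 : R) = 0 := by
      have h : (2 : ZMod 2) = 0 := rfl
      rw [← map_ofNat (C : ZMod 2 →+* R) 2, h, map_zero]
    rw [← map_ofNat π 2, this, map_zero]
  have hcE : Fintype.card E = n * n - S.card := by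
    simp only [E]
    rw [Fintype.card_subtype_compl]
    simp
  have hcP : Fintype.card {l // P l} = n / 2 :=
    Fintype.card_fin_lt_of_le (Nat.div_le_self n 2)
  have hcQ : Fintype.card {l // ¬ P l} = n - n / 2 := by
    rw [Fintype.card_subtype_compl, hcP, Fintype.card_fin]
  have h3 : (π.mapMatrix M).det = 0 := by
    refine det_block_eq_zero h2 (fun q : E => q.1.1) (fun q : E => q.1.2)
      (fun q : E => L q.1.1 q.1.2) P (fun i j => π (cellVar S i j))
      (fun i j => π (C (x i j) + cellVar S i j)) ?_ ?_ _ ?_ ?_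
    · intro i j
      rw [← map_mul]
      unfold cellVar
      split_ifs with h
      · simp
      · exact Ideal.Quotient.eq_zero_iff_mem.2 (Ideal.subset_span ⟨_, rfl⟩)
    · intro i j
      rw [map_add]
      congr 1
      simp only [x]
      split_ifs <;> simp
    · intro q p
      change π (M q p) = _
      simp only [M]
      split_ifs <;> simp
    · rw [hcE, hcP, hcQ, Fintype.card_fin]
      obtain ⟨k, hk | hk⟩ := Nat.even_or_odd' n
      · have e1 : n / 2 = k := by omega
        have e2 : n - k = k := by omega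
        have e3 : n ^ 2 / 4 = k * k := by
          rw [hk, show (2 * k) ^ 2 = 4 * (k * k) by ring]; omega
        have e4 : n * n = 4 * (k * k) := by rw [hk]; ring
        have e5 : n * k = 2 * (k * k) := by rw [hk]; ring
        rw [e1, e2, e4, e5]
        omega
      · have e1 : n / 2 = k := by omega
        have e2 : n - k = k + 1 := by omega
        have e3 : n ^ 2 / 4 = k * k + k := by
          rw [hk, show (2 * k + 1) ^ 2 = 4 * (k * k + k) + 1 by ring]; omega
        have e4 : n * n = 4 * (k * k) + 4 * k + 1 := by rw [hk]; ring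
        have e5 : n * k = 2 * (k * k) + k := by rw [hk]; ring
        have e6 : (k + 1) * (k + 1) = k * k + 2 * k + 1 := by ring
        rw [e1, e2, e4, e5, e6]
        omega
  rw [← RingHom.map_det] at h3
  have h4 := coeff_eq_zero_of_mem M.det (Ideal.Quotient.eq_zero_iff_mem.1 h3)
  rw [h1] at h4
  exact one_ne_zero h4

end Pool.Agent.MP_25e033_co

end
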