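import Pool.Agent.MP_25e033_co.Defs
import Pool.Agent.MP_25e033_co.Mg.Main

set_option autoImplicit false

namespace Pool.Agent.MP_25e033_co

theorem nelder_triples (n : ℕ) (L P : Finset (Fin n × Fin n × Fin n)) (hL : IsLatin L)
    (hP : IsUC L P) : n ^ 2 / 4 ≤ P.card := by
  classical
  obtain ⟨h1, h2, h3⟩ := hL
  choose f hf hf' using h1
  have hr : ∀ i, Function.Injective (f i) := by
    intro i j j' h
    exact (h2 i (f i j)).unique (hf i j) (h ▸ hf i j')
  have hc : ∀ j, Function.Injective (fun i => f i j) := by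
    intro j i i' h
    simp only at h
    exact (h3 j (f i j)).unique (hf i j) (h ▸ hf i' j)
  refine le_trans (nelder n f hr hc (P.image fun t => (t.1, t.2.1)) ?_) Finset.card_image_le
  intro M hMr hMc hM
  have hLat : IsLatin (Finset.univ.filter fun t : Fin n × Fin n × Fin n => M t.1 t.2.1 = t.2.2) := by
    refine ⟨fun r c => ⟨M r c, by simp, fun s hs => ?_⟩, fun r s => ?_, fun c s => ?_⟩
    · simpa [eq_comm] using hs
    · obtain ⟨c, hc⟩ := (Finite.injective_iff_surjective.1 (hMr r)) s
      refine ⟨c, by simpa using hc, fun c' hc' => hMr r ?_⟩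
      rw [hc]; simpa using hc'
    · obtain ⟨r, hr⟩ := (Finite.injective_iff_surjective.1 (hMc c)) s
      refine ⟨r, by simpa using hr, fun r' hr' => hMc c ?_⟩
      rw [hr]; simpa using hr'
  have hsub : P ⊆ Finset.univ.filter fun t : Fin n × Fin n × Fin n => M t.1 t.2.1 = t.2.2 := by
    intro t ht
    have e1 := hM (t.1, t.2.1) (Finset.mem_image_of_mem _ ht)
    have e2 := hf' t.1 t.2.1 t.2.2 (hP.1 ht)
    simp only [Finset.mem_filter, Finset.mem_univ, true_and]
    rw [e2]; exact e1
  have heq := hP.2 _ hLat hsub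
  funext r c
  apply hf'
  rw [← heq]
  simp

end Pool.Agent.MP_25e033_co
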